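import Pool.Agent.H742Z.GP.Moves

/-! Sweeping along disjoint paths and along ladders. -/

set_option autoImplicit false

namespace Pool.Agent.H742Z.GP

open Set

variable {α : Type} {R : α → α → Prop} {Q : Set α}

theorem sweep {I : Type} {T : Set I} (hT : T.Finite) (γ : I → ℕ → α) (n : I → ℕ) {A B : Set α}
    (hR : ∀ i ∈ T, ∀ t < n i, R (γ i t) (γ i (t + 1)))
    (inj : ∀ i ∈ T, ∀ k ∈ T, ∀ s ≤ n i, ∀ t ≤ n k, γ i s = γ k t → i = k ∧ s = t)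
    (hQ : ∀ i ∈ T, ∀ t, 1 ≤ t → t ≤ n i → γ i t ∈ Q ∧ γ i t ∉ A ∧ γ i t ∉ B) :
    Mvs R Q (A, B) ((A \ (fun i => γ i 0) '' T) ∪ (fun i => γ i (n i)) '' T,
      B ∪ {x | ∃ i ∈ T, ∃ t < n i, x = γ i t}) := by
  have key : ∀ t : ℕ, Mvs R Q (A, B) ((A \ (fun i => γ i 0) '' T) ∪
      (fun i => γ i (min t (n i))) '' T, B ∪ {x | ∃ i ∈ T, ∃ s < min t (n i), x = γ i s}) := by
    intro t
    induction t with
    | zero =>
      refine Mvs.weak (fun x hx => ?_) subset_union_left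
      by_cases h : x ∈ (fun i => γ i 0) '' T
      · exact Or.inr (by simpa using h)
      · exact Or.inl ⟨hx, h⟩
    | succ t ih =>
      refine (ih.trans (batch_move (T := {i ∈ T | t < n i}) (hT.subset (sep_subset _ _))
        (fun i => γ i t) (fun i => γ i (t + 1))
        (fun i hi k hk e => (inj i hi.1 k hk.1 _ hi.2 _ hk.2 e).1)
        (fun i hi => hR i hi.1 t hi.2) (fun i hi => (hQ i hi.1 _ (by omega) hi.2).1)
        ?_ ?_ ?_)).right ?_ ?_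
      · rintro i hi (h | ⟨k, hk, e⟩)
        · exact (hQ i hi.1 _ (by omega) hi.2).2.1 h.1
        · have := (inj k hk i hi.1 _ (min_le_right _ _) _ hi.2 e).2
          omega
      · rintro i hi (h | ⟨k, hk, s, hs, e⟩)
        · exact (hQ i hi.1 _ (by omega) hi.2).2.2 h
        · have := (inj i hi.1 k hk _ hi.2 s (by omega) e).2
          omega
      · intro i hi k hk e
        have := (inj i hi.1 k hk.1 _ hi.2 _ hk.2.le e).2
        omega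
      · rintro x (⟨h | ⟨k, hk, rfl⟩, hx⟩ | ⟨k, hk, rfl⟩)
        · exact Or.inl h
        · refine Or.inr ⟨k, hk, ?_⟩
          by_cases c : t < n k
          · exact absurd ⟨k, ⟨hk, c⟩, by simp only [min_eq_left c.le]⟩ hx
          · show γ k (min (t + 1) (n k)) = γ k (min t (n k))
            rw [min_eq_right (by omega), min_eq_right (by omega)]
        · refine Or.inr ⟨k, hk.1, ?_⟩
          show γ k (min (t + 1) (n k)) = γ k (t + 1)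
          rw [min_eq_left hk.2]
      · rintro x ((h | ⟨k, hk, s, hs, rfl⟩) | ⟨k, hk, rfl⟩)
        · exact Or.inl h
        · exact Or.inr ⟨k, hk, s, by omega, rfl⟩
        · exact Or.inr ⟨k, hk.1, t, by have := hk.2; omega, rfl⟩
  obtain ⟨N, hN⟩ := (hT.image n).bddAbove
  refine (key N).right ?_ ?_
  · rintro x (h | ⟨k, hk, rfl⟩)
    · exact Or.inl h
    · exact Or.inr ⟨k, hk, by simp only [min_eq_right (hN (mem_image_of_mem n hk))]⟩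
  · rintro x (h | ⟨k, hk, s, hs, rfl⟩)
    · exact Or.inl h
    · exact Or.inr ⟨k, hk, s, by omega, rfl⟩

theorem ladder {I : Type} {T : Set I} (hT : T.Finite) (p p' : I → ℕ → α) (m : ℕ) (hm : 1 ≤ m)
    {A B : Set α}
    (hp : ∀ i ∈ T, ∀ t < m, R (p i t) (p i (t + 1)))
    (hp' : ∀ i ∈ T, ∀ t < m, R (p' i t) (p' i (t + 1)))
    (hpp' : ∀ i ∈ T, ∀ t ≤ m, R (p i t) (p' i t))
    (inj : ∀ i ∈ T, ∀ k ∈ T, ∀ s ≤ m, ∀ t ≤ m, (p i s = p k t → i = k ∧ s = t) ∧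
      (p' i s = p' k t → i = k ∧ s = t) ∧ p i s ≠ p' k t)
    (hQ : ∀ i ∈ T, ∀ t ≤ m, p i t ∈ Q ∧ p' i t ∈ Q)
    (hB : ∀ i ∈ T, ∀ t ≤ m, 1 ≤ t → p i t ∉ B)
    (hA' : ∀ i ∈ T, ∀ t ≤ m, p' i t ∉ A ∧ p' i t ∉ B) :
    Mvs R Q (A, B) ((A \ {x | ∃ i ∈ T, ∃ t ≤ m, x = p i t}) ∪
        {x | ∃ i ∈ T, x = p' i (m - 1) ∨ x = p' i m},
      B ∪ {x | ∃ i ∈ T, ∃ t ≤ m, x = p i t ∨ x = p' i t}) := by
  -- the state after the gadgets of time `t`
  have gad : ∀ t < m, Mvs R Q (A, B) ((A \ {x | ∃ i ∈ T, ∃ s < t, x = p i s}) ∪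
        {x | ∃ i ∈ T, x = p i t ∨ x = p' i t},
      B ∪ {x | ∃ i ∈ T, (∃ s ≤ t, x = p i s) ∨ ∃ s < t, x = p' i s}) →
      Mvs R Q (A, B) ((A \ {x | ∃ i ∈ T, ∃ s ≤ t, x = p i s}) ∪
        {x | ∃ i ∈ T, x = p i (t + 1) ∨ x = p' i t},
      B ∪ {x | ∃ i ∈ T, (∃ s ≤ t + 1, x = p i s) ∨ ∃ s ≤ t, x = p' i s}) := by
    intro t ht h
    refine (h.trans (batch_gad hT (fun i => p i t) (fun i => p i (t + 1)) (fun i => p' i t)
      (fun i hi k hk e => ((inj i hi k hk _ ht _ ht).1 e).1)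
      (fun i hi k hk e => ((inj i hi k hk _ ht.le _ ht.le).2.1 e).1)
      (fun i hi k hk => (inj i hi k hk _ ht _ ht.le).2.2)
      (fun i hi => ⟨hp i hi t ht, hpp' i hi t ht.le⟩)
      (fun i hi => ⟨(hQ i hi _ ht).1, (hQ i hi _ ht.le).2⟩) (fun i hi => ⟨?_, ?_⟩)
      fun i hi k hk => ⟨fun e => ?_, (inj k hk i hi _ ht.le _ ht.le).2.2.symm⟩)).right ?_ ?_
    · rintro (h | ⟨k, hk, ⟨s, hs, e⟩ | ⟨s, hs, e⟩⟩)
      · exact hB i hi _ ht (by omega) h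
      · have := ((inj i hi k hk _ ht s (by omega)).1 e).2
        omega
      · exact (inj i hi k hk _ ht s (by omega)).2.2 e
    · rintro (h | ⟨k, hk, ⟨s, hs, e⟩ | ⟨s, hs, e⟩⟩)
      · exact (hA' i hi _ ht.le).2 h
      · exact (inj k hk i hi s (by omega) _ ht.le).2.2 e.symm
      · have := ((inj i hi k hk _ ht.le s (by omega)).2.1 e).2
        omega
    · have := ((inj i hi k hk _ ht _ ht.le).1 e).2
      omega
    · rintro x (⟨⟨h, h'⟩ | ⟨k, hk, rfl | rfl⟩, hx⟩ | ⟨k, hk, rfl⟩ | ⟨k, hk, rfl⟩)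
      · refine Or.inl ⟨h, ?_⟩
        rintro ⟨k, hk, s, hs, rfl⟩
        rcases hs.eq_or_lt with rfl | hs
        · exact hx ⟨k, hk, rfl⟩
        · exact h' ⟨k, hk, s, hs, rfl⟩
      · exact absurd ⟨k, hk, rfl⟩ hx
      · exact Or.inr ⟨k, hk, Or.inr rfl⟩
      · exact Or.inr ⟨k, hk, Or.inl rfl⟩
      · exact Or.inr ⟨k, hk, Or.inr rfl⟩
    · rintro x ((h | ⟨k, hk, ⟨s, hs, rfl⟩ | ⟨s, hs, rfl⟩⟩) | ⟨k, hk, rfl⟩ | ⟨k, hk, rfl⟩ |
        ⟨k, hk, rfl⟩)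
      · exact Or.inl h
      · exact Or.inr ⟨k, hk, Or.inl ⟨s, by omega, rfl⟩⟩
      · exact Or.inr ⟨k, hk, Or.inr ⟨s, by omega, rfl⟩⟩
      · exact Or.inr ⟨k, hk, Or.inl ⟨t, by omega, rfl⟩⟩
      · exact Or.inr ⟨k, hk, Or.inl ⟨t + 1, by omega, rfl⟩⟩
      · exact Or.inr ⟨k, hk, Or.inr ⟨t, by omega, rfl⟩⟩
  have key : ∀ t < m, Mvs R Q (A, B) ((A \ {x | ∃ i ∈ T, ∃ s < t, x = p i s}) ∪
        {x | ∃ i ∈ T, x = p i t ∨ x = p' i t},
      B ∪ {x | ∃ i ∈ T, (∃ s ≤ t, x = p i s) ∨ ∃ s < t, x = p' i s}) := by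
    intro t
    induction t with
    | zero => exact fun _ => Mvs.weak (fun x hx => Or.inl ⟨hx, by simp⟩) subset_union_left
    | succ t ih =>
      intro ht
      have ht' : t < m := by omega
      refine ((gad t ht' (ih ht')).trans (batch_move hT (fun i => p' i t) (fun i => p' i (t + 1))
        (fun i hi k hk e => ((inj i hi k hk _ ht.le _ ht.le).2.1 e).1)
        (fun i hi => hp' i hi t ht') (fun i hi => (hQ i hi _ ht.le).2) ?_ ?_ ?_)).right ?_ ?_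
      · rintro i hi (h | ⟨k, hk, e | e⟩)
        · exact (hA' i hi _ ht.le).1 h.1
        · exact (inj k hk i hi _ ht.le _ ht.le).2.2 e.symm
        · have := ((inj i hi k hk _ ht.le _ ht'.le).2.1 e).2
          omega
      · rintro i hi (h | ⟨k, hk, ⟨s, hs, e⟩ | ⟨s, hs, e⟩⟩)
        · exact (hA' i hi _ ht.le).2 h
        · exact (inj k hk i hi s (by omega) _ ht.le).2.2 e.symm
        · have := ((inj i hi k hk _ ht.le s (by omega)).2.1 e).2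
          omega
      · intro i hi k hk e
        have := ((inj i hi k hk _ ht.le _ ht'.le).2.1 e).2
        omega
      · rintro x (⟨⟨h, h'⟩ | ⟨k, hk, rfl | rfl⟩, hx⟩ | ⟨k, hk, rfl⟩)
        · exact Or.inl ⟨h, fun ⟨k, hk, s, hs, e⟩ => h' ⟨k, hk, s, by omega, e⟩⟩
        · exact Or.inr ⟨k, hk, Or.inl rfl⟩
        · exact absurd ⟨k, hk, rfl⟩ hx
        · exact Or.inr ⟨k, hk, Or.inr rfl⟩
      · rintro x ((h | ⟨k, hk, ⟨s, hs, rfl⟩ | ⟨s, hs, rfl⟩⟩) | ⟨k, hk, rfl⟩)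
        · exact Or.inl h
        · exact Or.inr ⟨k, hk, Or.inl ⟨s, hs, rfl⟩⟩
        · exact Or.inr ⟨k, hk, Or.inr ⟨s, by omega, rfl⟩⟩
        · exact Or.inr ⟨k, hk, Or.inr ⟨t, by omega, rfl⟩⟩
  obtain ⟨t, rfl⟩ : ∃ t, m = t + 1 := ⟨m - 1, by omega⟩
  have ht : t < t + 1 := by omega
  refine ((gad t ht (key t ht)).trans (batch_move hT (fun i => p i (t + 1)) (fun i => p' i (t + 1))
    (fun i hi k hk e => ((inj i hi k hk _ le_rfl _ le_rfl).2.1 e).1)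
    (fun i hi => hpp' i hi _ le_rfl) (fun i hi => (hQ i hi _ le_rfl).2) ?_ ?_
    fun i hi k hk => (inj k hk i hi _ le_rfl _ le_rfl).2.2.symm)).right ?_ ?_
  · rintro i hi (h | ⟨k, hk, e | e⟩)
    · exact (hA' i hi _ le_rfl).1 h.1
    · exact (inj k hk i hi _ le_rfl _ le_rfl).2.2 e.symm
    · have := ((inj i hi k hk _ le_rfl _ ht.le).2.1 e).2
      omega
  · rintro i hi (h | ⟨k, hk, ⟨s, hs, e⟩ | ⟨s, hs, e⟩⟩)
    · exact (hA' i hi _ le_rfl).2 h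
    · exact (inj k hk i hi s hs _ le_rfl).2.2 e.symm
    · have := ((inj i hi k hk _ le_rfl s (by omega)).2.1 e).2
      omega
  · rintro x (⟨⟨h, h'⟩ | ⟨k, hk, rfl | rfl⟩, hx⟩ | ⟨k, hk, rfl⟩)
    · refine Or.inl ⟨h, ?_⟩
      rintro ⟨k, hk, s, hs, rfl⟩
      rcases hs.eq_or_lt with rfl | hs
      · exact hx ⟨k, hk, rfl⟩
      · exact h' ⟨k, hk, s, by omega, rfl⟩
    · exact absurd ⟨k, hk, rfl⟩ hx
    · exact Or.inr ⟨k, hk, Or.inl rfl⟩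
    · exact Or.inr ⟨k, hk, Or.inr rfl⟩
  · rintro x ((h | ⟨k, hk, ⟨s, hs, rfl⟩ | ⟨s, hs, rfl⟩⟩) | ⟨k, hk, rfl⟩)
    · exact Or.inl h
    · exact Or.inr ⟨k, hk, s, hs, Or.inl rfl⟩
    · exact Or.inr ⟨k, hk, s, by omega, Or.inr rfl⟩
    · exact Or.inr ⟨k, hk, t + 1, le_rfl, Or.inl rfl⟩

end Pool.Agent.H742Z.GP
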